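import Mathlib
import Pool.Agent.H17.KL

set_option autoImplicit false

namespace Pool.Agent.Results.MP_8dd099_nt.Infinite

theorem result (KL : ℕ → ℝ)
    (hKL : ∀ n, KL n = ∑ d ∈ n.divisors, (d : ℝ) * Real.log ((d : ℝ) / (2 * (Nat.totient d : ℝ)))) :
    {n : ℕ | 0 < n ∧ ∑ d ∈ n.divisors, d < 2 * n ∧ 0 ≤ KL n ∧
      ∀ d, d ∣ n → d < n → KL d < 0}.Infinite := by
  obtain rfl : KL = Pool.Agent.H17.KL.KL := funext hKL
  exact Pool.Agent.H17.KL.infinite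

end Pool.Agent.Results.MP_8dd099_nt.Infinite
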